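import Mathlib
import Pool.Agent.H759R2.Kad.Props7

open scoped ComplexOrder InnerProductSpace ComplexConjugate ComplexStarModule
open Finset

noncomputable section

namespace H759R2.Kad

universe u v

namespace H29Jord

variable {A : Type u} [CStarAlgebra A]

section order

variable [PartialOrder A] [StarOrderedRing A]

lemma norm_le_of_sa {x : A} (hx : IsSelfAdjoint x) {s : ℝ} (hs : 0 ≤ s)
    (h1 : x ≤ algebraMap ℝ A s) (h2 : -x ≤ algebraMap ℝ A s) : ‖x‖ ≤ s := by
  rcases subsingleton_or_nontrivial A with h | h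
  · rw [Subsingleton.elim x 0, norm_zero]; exact hs
  · rcases CStarAlgebra.norm_or_neg_norm_mem_spectrum (a := x) hx with h' | h'
    · exact (le_algebraMap_iff_spectrum_le (a := x)).1 h1 _ h'
    · have h3 : ‖x‖ ∈ spectrum ℝ (-x) := by
        rw [← spectrum.neg_eq]
        simpa using h'
      exact (le_algebraMap_iff_spectrum_le (a := -x) (ha := hx.neg)).1 h2 _ h3

/-- the cone of pairs of positive elements -/
def cone : PointedCone ℝ (selfAdjoint A × selfAdjoint A) where
  carrier := {y | 0 ≤ (y.1 : A) ∧ 0 ≤ (y.2 : A)}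
  add_mem' := by
    rintro a b ⟨h1, h2⟩ ⟨h3, h4⟩
    exact ⟨by simpa using add_nonneg h1 h3, by simpa using add_nonneg h2 h4⟩
  zero_mem' := by simp
  smul_mem' := by
    rintro ⟨c, hc⟩ a ⟨h1, h2⟩
    exact ⟨by simpa using smul_nonneg hc h1, by simpa using smul_nonneg hc h2⟩

/-- `(x, s) ↦ (x + s, -x + s)` -/
def T : (selfAdjoint A × ℝ) →ₗ[ℝ] (selfAdjoint A × selfAdjoint A) where
  toFun y := (y.1 + y.2 • 1, -y.1 + y.2 • 1)
  map_add' a b := by
    ext <;> simp [add_smul] <;> abel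
  map_smul' c a := by
    ext <;> simp [smul_smul]

omit [PartialOrder A] [StarOrderedRing A] in
lemma T_inj [Nontrivial A] : Function.Injective (T (A := A)) := by
  rw [← LinearMap.ker_eq_bot, LinearMap.ker_eq_bot']
  rintro ⟨x, s⟩ h
  have h1 : x + s • (1 : selfAdjoint A) = 0 := congrArg Prod.fst h
  have h2 : -x + s • (1 : selfAdjoint A) = 0 := congrArg Prod.snd h
  have h3 : (2 * s) • (1 : selfAdjoint A) = 0 := by
    have : (x + s • (1 : selfAdjoint A)) + (-x + s • (1 : selfAdjoint A)) = 0 := by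
      rw [h1, h2, add_zero]
    rw [two_mul, add_smul]
    rw [← this]; abel
  have h4 : s = 0 := by
    by_contra hs
    have h5 : (2 * s) ≠ 0 := mul_ne_zero two_ne_zero hs
    have h6 := (smul_eq_zero.1 h3).resolve_left h5
    have h7 : (1 : A) = 0 := by simpa using congrArg (Subtype.val) h6
    exact one_ne_zero h7
  subst h4
  have h8 : x = 0 := by simpa using h1
  rw [h8]; rfl

/-- Jordan decomposition of real functionals on the self-adjoint part. -/
theorem real_jordan (g : selfAdjoint A →ₗ[ℝ] ℝ) (C : ℝ) (hC : 0 ≤ C)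
    (hg : ∀ x : selfAdjoint A, |g x| ≤ C * ‖(x : A)‖) :
    ∃ φ ψ : selfAdjoint A →ₗ[ℝ] ℝ, (∀ x : selfAdjoint A, 0 ≤ (x : A) → 0 ≤ φ x) ∧
      (∀ x : selfAdjoint A, 0 ≤ (x : A) → 0 ≤ ψ x) ∧ φ 1 ≤ C ∧ ψ 1 ≤ C ∧
      ∀ x, g x = φ x - ψ x := by
  rcases subsingleton_or_nontrivial A with h | h
  · refine ⟨0, 0, by simp, by simp, by simpa using hC, by simpa using hC, fun x => ?_⟩
    have : x = 0 := Subtype.ext (Subsingleton.elim _ _)
    rw [this]; simp
  let e := LinearEquiv.ofInjective (T (A := A)) T_inj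
  let F : (selfAdjoint A × ℝ) →ₗ[ℝ] ℝ := g.coprod (C • LinearMap.id)
  let f : (selfAdjoint A × selfAdjoint A) →ₗ.[ℝ] ℝ :=
    ⟨LinearMap.range (T (A := A)), F.comp e.symm.toLinearMap⟩
  have hf : ∀ (x : selfAdjoint A) (s : ℝ), f ⟨T (x, s), LinearMap.mem_range_self _ _⟩ =
      g x + s * C := by
    intro x s
    have h1 : (⟨T (x, s), LinearMap.mem_range_self _ _⟩ : LinearMap.range (T (A := A))) =
      e (x, s) := rfl
    change F (e.symm ⟨T (x, s), LinearMap.mem_range_self _ _⟩) = _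
    rw [h1, LinearEquiv.symm_apply_apply]
    simp [F, mul_comm]
  have key1 : ∀ x : f.domain, (x : selfAdjoint A × selfAdjoint A) ∈ cone (A := A) → 0 ≤ f x := by
    rintro ⟨_, ⟨x, s⟩, rfl⟩ ⟨h1, h2⟩
    rw [hf]
    have h1' : 0 ≤ (x : A) + s • (1 : A) := by simpa [T] using h1
    have h2' : 0 ≤ -(x : A) + s • (1 : A) := by simpa [T] using h2
    have hs : 0 ≤ s := by
      by_contra hs
      push Not at hs
      have h3 : 0 ≤ (2 * s) • (1 : A) := by
        have := add_nonneg h1' h2'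
        have e1 : (x : A) + s • (1 : A) + (-(x : A) + s • (1 : A)) = (2 * s) • (1 : A) := by
          rw [two_mul, add_smul]; abel
        rwa [e1] at this
      have h4 : 0 ≤ (-(2 * s)) • (1 : A) := smul_nonneg (by linarith) zero_le_one
      rw [neg_smul] at h4
      have h5 : (2 * s) • (1 : A) = 0 := le_antisymm (neg_nonneg.1 h4) h3
      exact one_ne_zero ((smul_eq_zero.1 h5).resolve_left (by linarith [hs]))
    have h3 : ‖(x : A)‖ ≤ s := by
      refine norm_le_of_sa x.2 hs ?_ ?_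
      · rw [Algebra.algebraMap_eq_smul_one, ← sub_nonneg]
        rwa [neg_add_eq_sub] at h2'
      · rw [Algebra.algebraMap_eq_smul_one, ← sub_nonneg, sub_neg_eq_add, add_comm]
        exact h1'
    have h4 := hg x
    have h5 := neg_abs_le (g x)
    nlinarith [mul_le_mul_of_nonneg_left h3 hC]
  have key2 : ∀ y, ∃ x : f.domain, (x : selfAdjoint A × selfAdjoint A) + y ∈ cone (A := A) := by
    rintro ⟨y, z⟩
    refine ⟨⟨T (0, max ‖(y : A)‖ ‖(z : A)‖), LinearMap.mem_range_self _ _⟩, ?_, ?_⟩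
    · have h1 : -(algebraMap ℝ A ‖(y : A)‖) ≤ (y : A) :=
        IsSelfAdjoint.neg_algebraMap_norm_le_self (a := (y : A)) y.2
      have h2 : algebraMap ℝ A ‖(y : A)‖ ≤ algebraMap ℝ A (max ‖(y : A)‖ ‖(z : A)‖) :=
        algebraMap_mono A (le_max_left _ _)
      rw [Algebra.algebraMap_eq_smul_one, Algebra.algebraMap_eq_smul_one] at h2
      rw [Algebra.algebraMap_eq_smul_one] at h1
      simp only [T, LinearMap.coe_mk, AddHom.coe_mk, Prod.fst_add]
      have : ((0 + max ‖(y : A)‖ ‖(z : A)‖ • (1 : selfAdjoint A) + y : selfAdjoint A) : A) =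
        max ‖(y : A)‖ ‖(z : A)‖ • (1 : A) + y := by simp
      rw [this]
      have h3 : 0 ≤ ‖(y : A)‖ • (1 : A) + y := by
        have := add_le_add_right h1 (‖(y : A)‖ • (1 : A))
        simpa using this
      exact h3.trans (add_le_add_left h2 _)
    · have h1 : -(algebraMap ℝ A ‖(z : A)‖) ≤ (z : A) :=
        IsSelfAdjoint.neg_algebraMap_norm_le_self (a := (z : A)) z.2
      have h2 : algebraMap ℝ A ‖(z : A)‖ ≤ algebraMap ℝ A (max ‖(y : A)‖ ‖(z : A)‖) :=
        algebraMap_mono A (le_max_right _ _)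
      rw [Algebra.algebraMap_eq_smul_one, Algebra.algebraMap_eq_smul_one] at h2
      rw [Algebra.algebraMap_eq_smul_one] at h1
      simp only [T, LinearMap.coe_mk, AddHom.coe_mk, Prod.snd_add]
      have : ((-0 + max ‖(y : A)‖ ‖(z : A)‖ • (1 : selfAdjoint A) + z : selfAdjoint A) : A) =
        max ‖(y : A)‖ ‖(z : A)‖ • (1 : A) + z := by simp
      rw [this]
      have h3 : 0 ≤ ‖(z : A)‖ • (1 : A) + z := by
        have := add_le_add_right h1 (‖(z : A)‖ • (1 : A))
        simpa using this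
      exact h3.trans (add_le_add_left h2 _)
  · obtain ⟨Λ, hΛ1, hΛ2⟩ := riesz_extension (cone (A := A)) f key1 key2
    have h11 : Λ (1, 0) + Λ (0, 1) = C := by
      rw [← map_add]
      have := hΛ1 ⟨T (0, 1), LinearMap.mem_range_self _ _⟩
      rw [hf] at this
      simpa [T] using this
    refine ⟨Λ.comp (LinearMap.inl ℝ _ _), Λ.comp (LinearMap.inr ℝ _ _), ?_, ?_, ?_, ?_, ?_⟩
    · intro x hx
      exact hΛ2 (x, 0) ⟨hx, by simp⟩
    · intro x hx
      exact hΛ2 (0, x) ⟨by simp, hx⟩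
    · have h11 : Λ (1, 0) + Λ (0, 1) = C := h11
      have h13 : 0 ≤ Λ (0, 1) := hΛ2 (0, 1) ⟨by simp, by simp⟩
      simp only [LinearMap.comp_apply, LinearMap.inl_apply]; linarith
    · have h12 : 0 ≤ Λ (1, 0) := hΛ2 (1, 0) ⟨by simp, by simp⟩
      simp only [LinearMap.comp_apply, LinearMap.inr_apply]; linarith
    · intro x
      have := hΛ1 ⟨T (x, 0), LinearMap.mem_range_self _ _⟩
      rw [hf] at this
      simp only [LinearMap.comp_apply, LinearMap.inl_apply, LinearMap.inr_apply]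
      rw [← map_sub]
      simpa [T] using this.symm

end order

/-- Complexification of a real functional. -/
def cx (φ : selfAdjoint A →ₗ[ℝ] ℝ) : A →ₗ[ℂ] ℂ where
  toFun a := (φ (ℜ a) : ℂ) + Complex.I * (φ (ℑ a) : ℂ)
  map_add' a b := by
    simp only [map_add, Complex.ofReal_add]; ring
  map_smul' c a := by
    simp only [realPart_smul, imaginaryPart_smul, map_add, map_sub, map_smul, smul_eq_mul,
      RingHom.id_apply]
    apply Complex.ext <;> simp

lemma cx_sa (φ : selfAdjoint A →ₗ[ℝ] ℝ) (x : selfAdjoint A) : cx φ (x : A) = (φ x : ℂ) := by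
  simp [cx]

end H29Jord

open H29Jord in
theorem prove7_jord : G_jord.{u} := by
  intro A _ f C hC hf
  let _ := CStarAlgebra.spectralOrder A
  have _ := CStarAlgebra.spectralOrderedRing A
  let g1 : selfAdjoint A →ₗ[ℝ] ℝ :=
    { toFun := fun x => (f (x : A)).re
      map_add' := fun x y => by simp
      map_smul' := fun c x => by
        have : ((c • x : selfAdjoint A) : A) = (c : ℂ) • (x : A) := by
          simp
        simp only [this, map_smul, smul_eq_mul, Complex.re_ofReal_mul, RingHom.id_apply] }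
  let g2 : selfAdjoint A →ₗ[ℝ] ℝ :=
    { toFun := fun x => (f (x : A)).im
      map_add' := fun x y => by simp
      map_smul' := fun c x => by
        have : ((c • x : selfAdjoint A) : A) = (c : ℂ) • (x : A) := by
          simp
        simp only [this, map_smul, smul_eq_mul, Complex.im_ofReal_mul, RingHom.id_apply] }
  obtain ⟨φ1, ψ1, a1, a2, a3, a4, a5⟩ := real_jordan g1 C hC
    (fun x => (Complex.abs_re_le_norm _).trans (hf _))
  obtain ⟨φ2, ψ2, b1, b2, b3, b4, b5⟩ := real_jordan g2 C hC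
    (fun x => (Complex.abs_im_le_norm _).trans (hf _))
  have hpos : ∀ φ : selfAdjoint A →ₗ[ℝ] ℝ, (∀ x : selfAdjoint A, 0 ≤ (x : A) → 0 ≤ φ x) →
      ∀ a : A, 0 ≤ cx φ (star a * a) := by
    intro φ hφ a
    have h := cx_sa φ ⟨star a * a, IsSelfAdjoint.star_mul_self a⟩
    rw [h]
    exact_mod_cast hφ _ (star_mul_self_nonneg a)
  have hone : ∀ φ : selfAdjoint A →ₗ[ℝ] ℝ, (cx φ (1 : A)).re = φ 1 := by
    intro φ
    have h := cx_sa φ (1 : selfAdjoint A)
    rw [selfAdjoint.val_one] at h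
    rw [h, Complex.ofReal_re]
  refine ⟨![cx φ1, cx φ2, cx ψ1, cx ψ2], ?_, ?_⟩
  · intro k
    fin_cases k
    · exact ⟨hpos _ a1, (hone _).le.trans a3⟩
    · exact ⟨hpos _ b1, (hone _).le.trans b3⟩
    · exact ⟨hpos _ a2, (hone _).le.trans a4⟩
    · exact ⟨hpos _ b2, (hone _).le.trans b4⟩
  · intro a
    have e1 : ∀ x : selfAdjoint A, f (x : A) = (g1 x : ℂ) + Complex.I * (g2 x : ℂ) := by
      intro x
      apply Complex.ext <;> simp [g1, g2]
    have e2 : f a = f (ℜ a : A) + Complex.I * f (ℑ a : A) := by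
      conv_lhs => rw [← realPart_add_I_smul_imaginaryPart a]
      rw [map_add, map_smul, smul_eq_mul]
    rw [e2, e1, e1, a5, b5, a5, b5]
    simp only [Fin.sum_univ_four, Matrix.cons_val_zero, Matrix.cons_val_one, Matrix.cons_val,
      Fin.val_zero, Fin.val_one, Fin.val_two, cx, LinearMap.coe_mk, AddHom.coe_mk]
    have h3 : ((3 : Fin 4) : ℕ) = 3 := rfl
    rw [h3]
    have hI : Complex.I ^ 2 = -1 := Complex.I_sq
    have hI3 : Complex.I ^ 3 = -Complex.I := by
      rw [pow_succ, hI]; ring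
    rw [hI, hI3]
    push_cast
    ring

end H759R2.Kad
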